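import Mathlib
import Pool.Agent.Lib.helper8.Bnd

set_option autoImplicit false

namespace Pool.Agent.H.MP_d015b4_co
open Pool.Agent.Lib.helper8

/-- the 52 down-sets of the poset on `0..6` with `0 < 5 < 6`, `1 < 6`, `2 < 6`, as bitmasks -/
def code (i : ℕ) : ℕ := (7406731308648197352143789789563892142057789628345694713048268641410620095259724612200077253150992035045507328 >>> (7 * i)) % 128

def dec (s : ℕ) : ℕ := ((436645713459576370198182533413500288854852621721490837956299851682979367281289037158965345616362876100603955607426364638599551544335941488552988868803940818317638829233543124010354382555644006935795555000079216125200305579498673344 >>> (6 * s)) % 64) % 52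

def L : Type := Fin 52

instance : DecidableEq L := inferInstanceAs (DecidableEq (Fin 52))
instance : Fintype L := inferInstanceAs (Fintype (Fin 52))

def mk (i : Fin 52) : L := i
def ix (a : L) : ℕ := Fin.val (n := 52) a
def cd (a : L) : ℕ := code (ix a)
def dc (s : ℕ) : L := mk ⟨dec s, Nat.mod_lt _ (by norm_num)⟩

theorem cd_inj : ∀ a b : Fin 52, code a.val = code b.val → a = b := by decide +kernel
theorem cd_or : ∀ a b : Fin 52, code (dec (code a.val ||| code b.val)) = code a.val ||| code b.val := by
  decide +kernel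
theorem cd_and : ∀ a b : Fin 52, code (dec (code a.val &&& code b.val)) = code a.val &&& code b.val := by
  decide +kernel

theorem or_abs (a b : ℕ) : a &&& (a ||| b) = a := by
  apply Nat.eq_of_testBit_eq
  intro i
  simp only [Nat.testBit_and, Nat.testBit_or]
  cases a.testBit i <;> simp

instance : DistribLattice L where
  le a b := cd a &&& cd b = cd a
  le_refl a := Nat.and_self _
  le_trans a b c h1 h2 := by
    show cd a &&& cd c = cd a
    have h1' : cd a &&& cd b = cd a := h1
    have h2' : cd b &&& cd c = cd b := h2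
    rw [← h1', Nat.and_assoc, h2']
  le_antisymm a b h1 h2 := by
    have h1' : cd a &&& cd b = cd a := h1
    have h2' : cd b &&& cd a = cd b := h2
    exact cd_inj a b (by
      show cd a = cd b
      rw [← h1', Nat.and_comm, h2'])
  sup a b := dc (cd a ||| cd b)
  inf a b := dc (cd a &&& cd b)
  le_sup_left a b := by
    have h : cd (dc (cd a ||| cd b)) = cd a ||| cd b := cd_or a b
    show cd a &&& cd (dc (cd a ||| cd b)) = cd a
    rw [h, or_abs]
  le_sup_right a b := by
    have h : cd (dc (cd a ||| cd b)) = cd a ||| cd b := cd_or a b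
    show cd b &&& cd (dc (cd a ||| cd b)) = cd b
    rw [h, Nat.or_comm, or_abs]
  sup_le a b c h1 h2 := by
    have h : cd (dc (cd a ||| cd b)) = cd a ||| cd b := cd_or a b
    have h1' : cd a &&& cd c = cd a := h1
    have h2' : cd b &&& cd c = cd b := h2
    show cd (dc (cd a ||| cd b)) &&& cd c = cd (dc (cd a ||| cd b))
    rw [h, Nat.and_or_distrib_right, h1', h2']
  inf_le_left a b := by
    have h : cd (dc (cd a &&& cd b)) = cd a &&& cd b := cd_and a b
    show cd (dc (cd a &&& cd b)) &&& cd a = cd (dc (cd a &&& cd b))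
    rw [h, Nat.and_comm, ← Nat.and_assoc, Nat.and_self]
  inf_le_right a b := by
    have h : cd (dc (cd a &&& cd b)) = cd a &&& cd b := cd_and a b
    show cd (dc (cd a &&& cd b)) &&& cd b = cd (dc (cd a &&& cd b))
    rw [h, Nat.and_assoc, Nat.and_self]
  le_inf a b c h1 h2 := by
    have h : cd (dc (cd b &&& cd c)) = cd b &&& cd c := cd_and b c
    have h1' : cd a &&& cd b = cd a := h1
    have h2' : cd a &&& cd c = cd a := h2
    show cd a &&& cd (dc (cd b &&& cd c)) = cd a
    rw [h, ← Nat.and_assoc, h1', h2']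
  le_sup_inf a b c := by
    have h1 : cd (dc (cd a ||| cd b)) = cd a ||| cd b := cd_or a b
    have h2 : cd (dc (cd a ||| cd c)) = cd a ||| cd c := cd_or a c
    have h3 : cd (dc (cd b &&& cd c)) = cd b &&& cd c := cd_and b c
    have h4 : ∀ u v : L, cd (dc (cd u &&& cd v)) = cd u &&& cd v := cd_and
    have h5 : ∀ u v : L, cd (dc (cd u ||| cd v)) = cd u ||| cd v := cd_or
    show cd (dc (cd (dc (cd a ||| cd b)) &&& cd (dc (cd a ||| cd c)))) &&&
      cd (dc (cd a ||| cd (dc (cd b &&& cd c)))) =
      cd (dc (cd (dc (cd a ||| cd b)) &&& cd (dc (cd a ||| cd c))))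
    rw [h4, h5, h5, h5, h3, Nat.or_and_distrib_left, Nat.and_self]

instance : DecidableRel (α := L) (· ≤ ·) := fun a b =>
  inferInstanceAs (Decidable (cd a &&& cd b = cd a))

def x0 : L := mk 15
def bot0 : L := mk 0
def top0 : L := mk 18
def K0 : List L := [mk 21, mk 25, mk 29, mk 31, mk 32, mk 38, mk 39, mk 46, mk 50]
def ch (i : Fin 9) : List L :=
  ![[mk 0, mk 19, mk 27, mk 37, mk 29, mk 35, mk 22, mk 18], [mk 0, mk 1, mk 24, mk 40, mk 46, mk 16, mk 17, mk 18], [mk 0, mk 1, mk 3, mk 11, mk 39, mk 16, mk 17, mk 18], [mk 0, mk 1, mk 5, mk 41, mk 44, mk 21, mk 17, mk 18], [mk 0, mk 1, mk 5, mk 13, mk 38, mk 16, mk 17, mk 18], [mk 0, mk 1, mk 9, mk 36, mk 33, mk 32, mk 17, mk 18], [mk 0, mk 2, mk 20, mk 47, mk 50, mk 16, mk 17, mk 18], [mk 0, mk 2, mk 10, mk 48, mk 45, mk 25, mk 17, mk 18], [mk 0, mk 4, mk 26, mk 51, mk 49, mk 31, mk 17, mk 18]] i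
def cm (i : ℕ) : ℕ := (8455649793077946173942417231540903716529316297967215858230793306090673456535750652343691914500788514244719550575872201269575234970216367822083476724720648337579394929782450936087658275746906856615463349055698958296892190166832581569750578749442806702047355134539329933152170487197974521686800830356438141741185801692403542818299632947877390131925042054248088246375524407990941952056037042699441306764911299208840664018901808807551507181563159113384137999884091565409644046545685477553372800589938283702067973470936060482693270211087061524222400145931687891855430861226087498698064876860954241121181621215286367552932418666654647431601450634687762918798428279570518576093136494466131594173505479226790143488296844282944067280822172920867857096880163706639363151458666561077735174758631076874927792786204641397309439 >>> (52 * i)) % 4503599627370496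
def inR (a : L) : Bool := Nat.testBit 3306464954843135 (ix a)
def rk (a : L) : ℕ := (40753416389934963529494059554870225937619293256 >>> (3 * ix a)) % 8

def srch (k : ℕ) : ℕ → Bool :=
  Nat.rec (fun U => !(Nat.beq U 0))
    (fun _ ih U => Nat.beq U 0 ||
      allLt 52 (fun u => !((cm (Nat.log2 U) &&& U).testBit u) || ih (U ^^^ (U &&& cm u)))) k

theorem srch9 : srch 9 4503599626846208 = true := by decide +kernel

theorem cm_spec : ∀ a b : L, (cm (ix a)).testBit (ix b) = true ↔ (a ≤ b ∨ b ≤ a) := by
  decide +kernel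

theorem U0_spec : ∀ a : L, Nat.testBit 4503599626846208 (ix a) = true ↔ ¬ (a ≤ x0 ∨ x0 ≤ a) := by
  decide +kernel

theorem bot_top : ∀ a : L, bot0 ≤ a ∧ a ≤ top0 := by decide +kernel

theorem R_ends : inR bot0 = true ∧ inR top0 = false := by decide +kernel

theorem R_step : ∀ c d : L, inR c = true → inR d = false → c ≤ d → d = x0 ∨ d ∈ K0 ∨
    ∃ z : L, c ≤ z ∧ z ≤ d ∧ z ≠ c ∧ z ≠ d := by decide +kernel

theorem rk_lt : ∀ a b : L, a ≤ b → a ≠ b → rk a < rk b := by decide +kernel

theorem K0_spec : K0.Nodup ∧ K0.length = 9 ∧ ∀ a ∈ K0, ¬ a ≤ x0 ∧ ¬ x0 ≤ a := by decide +kernel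

theorem ch_chain : ∀ i : Fin 9, ∀ a ∈ ch i, ∀ b ∈ ch i, a ≤ b ∨ b ≤ a := by decide +kernel

theorem ch_max : ∀ i : Fin 9, ∀ z : L, (∀ a ∈ ch i, z ≤ a ∨ a ≤ z) → z ∈ ch i := by decide +kernel

theorem ch_x : ∀ i : Fin 9, x0 ∉ ch i := by decide +kernel

theorem ch_disj : ∀ i j : Fin 9, ∀ a ∈ ch i, a ∈ ch j → ¬ a ≤ x0 → ¬ x0 ≤ a → i = j := by
  decide +kernel

end Pool.Agent.H.MP_d015b4_co
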